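import Pool.Agent.H48.RG.Targets
import Pool.Agent.H48.RG.Mol

/-! MP_2697e3_an, partial regularity, part D: approximation by test functions. -/

namespace Pool.Agent.H11.RG

open MeasureTheory Metric Set Filter Topology Pool.Agent.H48.RG Pool.Agent.H87.SN
open scoped ContDiff RealInnerProductSpace ENNReal

theorem rh_int (n k : ℕ) : ∫ x, rh n k x = 1 := (bmp n k).integral_normed

theorem rh_nonneg (n k : ℕ) (x : E n) : 0 ≤ rh n k x := (bmp n k).nonneg_normed x

theorem rh_integrable (n k : ℕ) : Integrable (rh n k) := (bmp n k).integrable_normed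

/-- the bound of a mollification -/
theorem mol_abs_le {n k : ℕ} {f : E n → ℝ} {B : ℝ} (hf : ∀ᵐ x, |f x| ≤ B) (x : E n) :
    |mol (rh n k) f x| ≤ B := by
  rw [mol_eq]
  have h1 : Integrable (fun t => rh n k (x - t)) := (rh_integrable n k).comp_sub_left x
  have h2 : ∫ t, rh n k (x - t) = 1 := by
    rw [integral_sub_left_eq_self (fun t => rh n k t) volume x, rh_int]
  have h3 : ‖∫ t, rh n k (x - t) • f t‖ ≤ ∫ t, rh n k (x - t) * B := by
    refine norm_integral_le_of_norm_le (h1.mul_const B) ?_
    filter_upwards [hf] with t ht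
    rw [norm_smul, Real.norm_of_nonneg (rh_nonneg n k _)]
    exact mul_le_mul_of_nonneg_left ht (rh_nonneg n k _)
  rw [integral_mul_const, h2, one_mul] at h3
  exact h3

/-- the gradient of a mollification -/
theorem gradient_mol {n k : ℕ} {f : E n → ℝ} {D : E n → E n} (hf : LocallyIntegrable f)
    (hD : LocallyIntegrable D) (hw : WG univ f D) (x : E n) :
    gradient (mol (rh n k) f) x = mol (rh n k) D x := by
  refine ext_inner_right ℝ fun v => ?_
  rw [inner_gradient_left, fderiv_mol (rh_smooth k) (rh_cpt k) hf]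
  have hφ : Tst univ (fun t => rh n k (x - t)) := by
    refine ⟨(rh_smooth k).comp (contDiff_const.sub contDiff_id), ?_, subset_univ _⟩
    exact (rh_cpt k).comp_homeomorph (Homeomorph.subLeft x)
  have h1 := hw _ hφ v
  have h2 : ∀ t, fderiv ℝ (fun t => rh n k (x - t)) t v = - fderiv ℝ (rh n k) (x - t) v := by
    intro t
    have h3 : HasFDerivAt (rh n k) (fderiv ℝ (rh n k) (x - t)) (x - t) :=
      (((rh_smooth k).differentiable (by simp)) _).hasFDerivAt
    have h4 : HasFDerivAt (fun t : E n => x - t) (-(ContinuousLinearMap.id ℝ (E n))) t :=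
      (hasFDerivAt_id t).const_sub x
    have h5 := h3.comp t h4
    have h6 : fderiv ℝ (fun t => rh n k (x - t)) t =
        (fderiv ℝ (rh n k) (x - t)).comp (-(ContinuousLinearMap.id ℝ (E n))) := h5.fderiv
    rw [h6]
    simp
  simp only [h2] at h1
  have h7 : ∫ t, fderiv ℝ (rh n k) (x - t) v • f t = - ∫ t, -(fderiv ℝ (rh n k) (x - t) v) * f t := by
    rw [← integral_neg]
    refine integral_congr_ae (Eventually.of_forall fun t => ?_)
    simp
  rw [h7, h1, neg_neg, mol_eq]
  have h8 := integral_inner (𝕜 := ℝ) (mol_int (m := k) hD x) v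
  have h9 : ⟪∫ t, rh n k (x - t) • D t, v⟫ = ∫ t, ⟪v, rh n k (x - t) • D t⟫ := by
    rw [h8, real_inner_comm]
  rw [h9]
  refine integral_congr_ae (Eventually.of_forall fun t => ?_)
  simp only [real_inner_smul_right]
  rw [real_inner_comm]

theorem pf_MLS : T_MLS := by
  intro n ρ f D hρ hρ1 hW
  have hm : AEStronglyMeasurable f volume := by
    have := hW.wb.ms
    rwa [Measure.restrict_univ] at this
  obtain ⟨B, hB⟩ := hW.wb.bd
  rw [Measure.restrict_univ] at hB
  have hD : MemLp D 2 volume := by
    have := hW.wb.d2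
    rwa [Measure.restrict_univ] at this
  have hf2 : MemLp f 2 volume := by
    have h1 : MemLp f ⊤ volume := memLp_top_of_bound hm B hB
    have h2 : MemLp f 2 (volume.restrict (closedBall (0 : E n) ρ)) := by
      have : IsFiniteMeasure (volume.restrict (closedBall (0 : E n) ρ)) :=
        ⟨by rw [Measure.restrict_apply_univ]; exact measure_closedBall_lt_top⟩
      exact (h1.restrict _).mono_exponent (by simp)
    have h3 : (closedBall (0 : E n) ρ).indicator f = f := by
      refine indicator_eq_self.2 fun x hx => ?_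
      by_contra h
      exact hx (hW.off x h).1
    rw [← h3]
    exact (memLp_indicator_iff_restrict measurableSet_closedBall).2 h2
  have hfl : LocallyIntegrable f := hf2.locallyIntegrable (by norm_num)
  have hDl : LocallyIntegrable D := hD.locallyIntegrable (by norm_num)
  have hlim : Tendsto (fun k : ℕ => 1 / ((k : ℝ) + 1)) atTop (𝓝 0) :=
    tendsto_one_div_add_atTop_nhds_zero_nat
  have hpos : (0 : ℝ) < 1 - ρ := by linarith
  obtain ⟨k0, hk0⟩ := eventually_atTop.1 (hlim.eventually (gt_mem_nhds hpos))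
  -- convergence in measure
  have hc1 : TendstoInMeasure volume (fun k => mol (rh n (k + k0)) f) atTop f := by
    refine tendstoInMeasure_of_tendsto_eLpNorm (p := 2) (by norm_num) ?_ hm ?_
    · intro k
      exact aesm_mol hfl _
    · exact (mol_tendsto hf2).comp (tendsto_add_atTop_nat k0)
  obtain ⟨ns, hns, hns2⟩ := hc1.exists_seq_tendsto_ae
  refine ⟨fun k => mol (rh n (ns k + k0)) f, ?_, hns2, ?_, ?_, ?_⟩
  · intro k
    obtain ⟨j, hj⟩ : ∃ j, j = ns k + k0 := ⟨_, rfl⟩
    have hj2 : 1 / ((j : ℝ) + 1) < 1 - ρ := hk0 j (by omega)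
    have hj0 : 0 < 1 / ((j : ℝ) + 1) := by positivity
    dsimp only
    rw [← hj]
    have hs : Function.support (mol (rh n j) f) ⊆ closedBall 0 (ρ + 1 / ((j : ℝ) + 1)) := by
      intro x hx
      by_contra h
      refine hx (mol_eq_zero (K := closedBall 0 ρ) (fun y hy => (hW.off y hy).1) ?_)
      rwa [cthickening_closedBall hj0.le hρ.le, add_comm]
    have ht : tsupport (mol (rh n j) f) ⊆ closedBall 0 (ρ + 1 / ((j : ℝ) + 1)) :=
      closure_minimal hs isClosed_closedBall
    refine ⟨contDiff_mol (rh_smooth j) (rh_cpt j) hfl, ?_, ?_⟩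
    · exact HasCompactSupport.intro (isCompact_closedBall (0 : E n) (ρ + 1 / ((j : ℝ) + 1)))
        fun x hx => by
          by_contra h
          exact hx (hs h)
    · exact ht.trans (closedBall_subset_ball (by linarith))
  · intro B' hB' k x
    exact mol_abs_le hB' x
  · intro k
    simp only [gradient_mol hfl hDl hW.wb.wg]
    exact (memLp_mol hD _).sub hD
  · simp only [gradient_mol hfl hDl hW.wb.wg]
    have h1 : Tendsto (fun k => eLpNorm (fun x => mol (rh n (ns k + k0)) D x - D x) 2 volume) atTop
        (𝓝 0) :=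
      (mol_tendsto hD).comp ((tendsto_add_atTop_nat k0).comp hns.tendsto_atTop)
    have h2 : ∀ k, ∫ x, ‖mol (rh n (ns k + k0)) D x - D x‖ ^ 2 =
        (eLpNorm (fun x => mol (rh n (ns k + k0)) D x - D x) 2 volume ^ 2).toReal := by
      intro k
      have h3 : MemLp (fun x => mol (rh n (ns k + k0)) D x - D x) 2 volume :=
        (memLp_mol hD _).sub hD
      have h6 : AEStronglyMeasurable (fun x => ‖mol (rh n (ns k + k0)) D x - D x‖ ^ 2) volume :=
        h3.1.norm.pow 2
      rw [eL2, integral_eq_lintegral_of_nonneg_ae (Eventually.of_forall fun x => sq_nonneg _) h6]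
      congr 1
      refine lintegral_congr fun x => ?_
      rw [ENNReal.ofReal_pow (norm_nonneg _), ofReal_norm]
    simp only [h2]
    have h4 : Tendsto (fun k => eLpNorm (fun x => mol (rh n (ns k + k0)) D x - D x) 2 volume ^ 2)
        atTop (𝓝 0) := by
      have h7 : Tendsto (fun a : ℝ≥0∞ => a ^ 2) (𝓝 0) (𝓝 0) := by
        have h8 := (ENNReal.continuous_pow 2).tendsto 0
        rwa [zero_pow two_ne_zero] at h8
      exact h7.comp h1
    have h5 := (ENNReal.tendsto_toReal (ENNReal.zero_ne_top)).comp h4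
    rw [ENNReal.toReal_zero] at h5
    exact h5

end Pool.Agent.H11.RG
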